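import Pool.Agent.Work.MP_b9355d_an.M14f

set_option autoImplicit false

open MeasureTheory

namespace Pool.Agent.Results.MP_b9355d_an.TwoSidedCorrelations

/-- `b` is a two-sided basic 2-step nilsequence: `b n = F (gⁿ x Γ)` for all integers `n`, where `G` is a
simply connected 2-step nilpotent Lie group (commutators are central), `Γ` a discrete cocompact subgroup
and `F` a continuous function on `G ⧸ Γ`. -/
def IsNilsequence (b : ℤ → ℂ) : Prop :=
  ∃ (G : Type) (_ : Group G) (_ : TopologicalSpace G) (d : ℕ)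
    (_ : ChartedSpace (EuclideanSpace ℝ (Fin d)) G)
    (_ : LieGroup (modelWithCornersSelf ℝ (EuclideanSpace ℝ (Fin d))) ((⊤ : ℕ∞) : WithTop ℕ∞) G),
    T2Space G ∧ SecondCountableTopology G ∧ SimplyConnectedSpace G ∧
    (∀ x y z : G, (x * y * x⁻¹ * y⁻¹) * z = z * (x * y * x⁻¹ * y⁻¹)) ∧
    ∃ Γ : Subgroup G, DiscreteTopology Γ ∧ CompactSpace (G ⧸ Γ) ∧
      ∃ F : G ⧸ Γ → ℂ, Continuous F ∧ ∃ g x : G, ∀ n : ℤ, b n = F (QuotientGroup.mk (g ^ n * x))

open Pool.Agent.Work.MP_b9355d_an in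
private theorem isNilsequence_of {s : ℤ → ℂ} (hs : IsNil s) : IsNilsequence s := by
  obtain ⟨p, F, g, x, hF, hinv, hs⟩ := hs
  refine ⟨EG p, inferInstance, inferInstance, m12dim p, inferInstance, inferInstance,
    inferInstanceAs (T2Space (EuclideanSpace ℝ (Fin (m12dim p)))),
    inferInstanceAs (SecondCountableTopology (EuclideanSpace ℝ (Fin (m12dim p)))), ?_, ?_,
    m12lat p, m12_discrete p, m12_compact p, ?_⟩
  · have : ContractibleSpace (EuclideanSpace ℝ (Fin (m12dim p))) := inferInstance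
    exact (inferInstance : SimplyConnectedSpace (EuclideanSpace ℝ (Fin (m12dim p))))
  · intro a b c
    refine m12_central _ ?_ c
    rw [map_mul, map_mul, map_mul, map_inv, map_inv]
    exact m12_comm_v _ _
  · have hwd : ∀ a b : EG p, (QuotientGroup.leftRel (m12lat p)) a b →
        F (m12iso p a) = F (m12iso p b) := by
      intro a b hab
      rw [QuotientGroup.leftRel_apply, m12_mem, map_mul, map_inv] at hab
      have h := hinv (m12iso p a) _ hab
      rw [mul_inv_cancel_left] at h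
      exact h.symm
    refine ⟨Quotient.lift (fun y => F (m12iso p y)) hwd,
      Continuous.quotient_lift (hF.comp (m12_cont p)) hwd,
      (m12iso p).symm g, (m12iso p).symm x, ?_⟩
    intro n
    show s n = F (m12iso p (((m12iso p).symm g) ^ n * (m12iso p).symm x))
    rw [map_mul, map_zpow, MulEquiv.apply_symm_apply, MulEquiv.apply_symm_apply, hs n]

/-- **Q1 in two-sided form, for arbitrary probability spaces.** -/
theorem result (X : Type) [MeasurableSpace X] (μ : Measure X) [IsProbabilityMeasure μ]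
    (T₁ T₂ : X ≃ᵐ X) (h₁ : MeasurePreserving T₁ μ μ) (h₂ : MeasurePreserving T₂ μ μ)
    (hcomm : ∀ x, T₁ (T₂ x) = T₂ (T₁ x)) (f₀ f₁ f₂ : X → ℂ)
    (m₀ : MemLp f₀ ⊤ μ) (m₁ : MemLp f₁ ⊤ μ) (m₂ : MemLp f₂ ⊤ μ) :
    ∃ a_st a_er : ℤ → ℂ,
      (∀ n : ℤ, ∫ x, f₀ x * f₁ ((T₁.toEquiv ^ n : Equiv.Perm X) x) *
        f₂ ((T₂.toEquiv ^ n : Equiv.Perm X) x) ∂μ = a_st n + a_er n) ∧
      (∀ ε : ℝ, 0 < ε → ∃ b : ℤ → ℂ, IsNilsequence b ∧ ∀ n : ℤ, ‖a_st n - b n‖ ≤ ε) ∧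
      (∀ ε : ℝ, 0 < ε → ∃ L : ℕ, ∀ (M : ℤ) (N : ℕ), L ≤ N → 0 < N →
        (∑ n ∈ Finset.range N, ‖a_er (M + n)‖ ^ 2) / N ≤ ε) := by
  obtain ⟨s, e, hse, hs, he⟩ := Pool.Agent.Work.MP_b9355d_an.zz_split
    (Pool.Agent.Work.MP_b9355d_an.zz_corr μ T₁ T₂ h₁ h₂ hcomm f₀ f₁ f₂ m₀ m₁ m₂)
  refine ⟨s, e, fun n => hse n, fun ε hε => ?_, fun ε hε => ?_⟩
  · obtain ⟨b, hb, hsb⟩ := hs ε hε
    exact ⟨b, isNilsequence_of hb, hsb⟩
  · obtain ⟨L, hL⟩ := he ε hε
    refine ⟨L, fun M N hLN hN => ?_⟩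
    have hN' : (0 : ℝ) < N := by exact_mod_cast hN
    rw [div_le_iff₀ hN']
    exact hL M N hLN

end Pool.Agent.Results.MP_b9355d_an.TwoSidedCorrelations
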